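import Pool.Agent.H382R2.Final0

/-! Equal consecutive ordinates and exceptional zeros. -/

open Filter

namespace Pool.Agent.V8H6.LB

open SG

/-- exceptional zeros -/
def Exc : Set ℂ := {s : ℂ | riemannZeta s = 0 ∧ 0 < s.re ∧ s.re < 1 ∧ 0 < s.im ∧
  (s.re ≠ 1 / 2 ∨ 2 ≤ zmult s)}

/-- indices of vanishing gaps -/
def Eq0 : Set ℕ := {n : ℕ | 1 ≤ n ∧ ord (n + 1) = ord n}

theorem exists_above {E : Set ℂ} (hE : E.Infinite)
    (hsub : ∀ s ∈ E, riemannZeta s = 0 ∧ 0 < s.re ∧ s.re < 1 ∧ 0 < s.im) (T : ℝ) :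
    ∃ s ∈ E, T < s.im := by
  by_contra hcon
  push Not at hcon
  refine hE ((ZS_finite T).subset fun s hs => ?_)
  obtain ⟨h1, h2, h3, h4⟩ := hsub s hs
  exact ⟨h1, h2, h3, h4, hcon s hs⟩

/-- an exceptional zero of large ordinate gives a vanishing gap at its ordinate -/
theorem gap_of_exc {s : ℂ} (hs : s ∈ Exc) (h1 : 1 ≤ s.im) :
    ∃ n : ℕ, 1 ≤ n ∧ ord n = s.im ∧ ord (n + 1) = s.im := by
  obtain ⟨h0, hr0, hr1, hpos, hex⟩ := hs
  have hj : ∀ t, t < s.im → NZ t + 2 ≤ NZ s.im := by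
    intro t ht
    rcases hex with hne | hm
    · have hz := zero_reflect h0 hr0 hr1 h1
      refine jump_two h0 hr0 hr1 hpos hz ?_ ?_ ?_ ?_ t ht
      · simp only [Complex.sub_re, Complex.one_re, Complex.conj_re]; linarith
      · simp only [Complex.sub_re, Complex.one_re, Complex.conj_re]; linarith
      · simp only [Complex.sub_im, Complex.one_im, Complex.conj_im]; ring
      · intro he
        apply hne
        have := congrArg Complex.re he
        simp only [Complex.sub_re, Complex.one_re, Complex.conj_re] at this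
        linarith
    · have := jump_one h0 hr0 hr1 hpos t ht
      omega
  obtain ⟨n, hn, ha, hb⟩ := consecutive_of_jump hpos hj
  have hmono : ord n ≤ ord (n + 1) := ord_mono hn (by omega)
  exact ⟨n, hn, by linarith, by linarith⟩

theorem eq0_infinite (hE : Exc.Infinite) : Eq0.Infinite := by
  intro hfin
  obtain ⟨B, hB⟩ := hfin.bddAbove
  obtain ⟨s, hs, hsT⟩ := exists_above hE (fun s hs => ⟨hs.1, hs.2.1, hs.2.2.1, hs.2.2.2.1⟩)
    (max 1 (ord (B + 1)))
  have h1 : 1 ≤ s.im := (le_max_left _ _).trans hsT.le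
  obtain ⟨n, hn, ha, hb⟩ := gap_of_exc hs h1
  have hmem : n ∈ Eq0 := ⟨hn, by rw [ha, hb]⟩
  have hle : n ≤ B := hB hmem
  have h2 : ord n ≤ ord (B + 1) := ord_mono hn (by omega)
  have h3 : ord (B + 1) < s.im := (le_max_right _ _).trans_lt hsT
  linarith

/-- a vanishing gap comes from an exceptional zero -/
theorem exc_of_gap {n : ℕ} (hn : n ∈ Eq0) : ∃ s ∈ Exc, s.im = ord n := by
  obtain ⟨hn1, he⟩ := hn
  set t := ord n with ht
  have htpos : 0 < t := ord_pos hn1
  have hc := ord_count t htpos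
  have hfinZ : ({s : ℂ | riemannZeta s = 0 ∧ 0 < s.re ∧ s.re < 1 ∧ s.im = t}).Finite :=
    (ZS_finite t).subset (fun s hs => ⟨hs.1, hs.2.1, hs.2.2.1, hs.2.2.2 ▸ htpos, hs.2.2.2.le⟩)
  have hfinN : ({m : ℕ | 1 ≤ m ∧ ord m = t}).Finite := by
    have := ord_tendsto.eventually (eventually_gt_atTop t)
    obtain ⟨M, hM⟩ := eventually_atTop.1 this
    refine (Set.finite_Iio M).subset fun m hm => ?_
    by_contra hle
    have h1 := hM m (not_lt.1 hle)
    rw [hm.2] at h1
    exact lt_irrefl _ h1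
  have h2 : 2 ≤ ({m : ℕ | 1 ≤ m ∧ ord m = t}).ncard := by
    have hsub : ({n, n + 1} : Set ℕ) ⊆ {m : ℕ | 1 ≤ m ∧ ord m = t} := by
      intro m hm
      rcases hm with rfl | hm
      · exact ⟨hn1, rfl⟩
      · rw [Set.mem_singleton_iff] at hm
        subst hm
        exact ⟨by omega, he⟩
    have h3 := Set.ncard_le_ncard hsub hfinN
    rwa [Set.ncard_pair (by omega)] at h3
  rw [hc] at h2
  by_contra hcon
  push Not at hcon
  -- every zero at this ordinate is simple and on the line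
  have hall : ∀ s ∈ {s : ℂ | riemannZeta s = 0 ∧ 0 < s.re ∧ s.re < 1 ∧ s.im = t},
      s = ⟨1 / 2, t⟩ ∧ zmult s ≤ 1 := by
    rintro s ⟨a1, a2, a3, a4⟩
    have hpos : 0 < s.im := a4 ▸ htpos
    by_cases h : s.re = 1 / 2 ∧ zmult s ≤ 1
    · exact ⟨Complex.ext h.1 a4, h.2⟩
    · exfalso
      refine hcon s ⟨a1, a2, a3, hpos, ?_⟩ a4
      by_cases hr : s.re = 1 / 2
      · right
        by_contra hm
        exact h ⟨hr, by omega⟩
      · exact Or.inl hr
  rw [finsum_mem_eq_finite_toFinset_sum _ hfinZ] at h2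
  have h4 : ∑ s ∈ hfinZ.toFinset, zmult s ≤ ∑ s ∈ ({⟨1 / 2, t⟩} : Finset ℂ), 1 := by
    calc ∑ s ∈ hfinZ.toFinset, zmult s ≤ ∑ s ∈ hfinZ.toFinset, 1 :=
          Finset.sum_le_sum fun s hs => (hall s (hfinZ.mem_toFinset.1 hs)).2
      _ ≤ ∑ s ∈ ({⟨1 / 2, t⟩} : Finset ℂ), 1 := by
          refine Finset.sum_le_sum_of_subset fun s hs => ?_
          rw [Finset.mem_singleton]
          exact (hall s (hfinZ.mem_toFinset.1 hs)).1
  rw [Finset.sum_singleton] at h4
  omega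

theorem exc_infinite (hE : Eq0.Infinite) : Exc.Infinite := by
  intro hfin
  obtain ⟨B, hB⟩ := (hfin.image Complex.im).bddAbove
  have h1 := ord_tendsto.eventually (eventually_gt_atTop B)
  obtain ⟨M, hM⟩ := eventually_atTop.1 h1
  obtain ⟨n, hn, hMn⟩ := hE.exists_gt M
  obtain ⟨s, hs, he⟩ := exc_of_gap hn
  have h2 := hB (Set.mem_image_of_mem _ hs)
  have h3 := hM n hMn.le
  linarith

theorem exc_iff : Exc.Infinite ↔ Eq0.Infinite := ⟨eq0_infinite, exc_infinite⟩

theorem liminf_bot {f : ℕ → EReal} (h : {n | f n = ⊥}.Infinite) :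
    liminf f atTop = ⊥ := by
  rw [← le_bot_iff]
  refine liminf_le_of_frequently_le' ?_
  rw [frequently_atTop]
  intro a
  obtain ⟨n, hn, han⟩ := h.exists_gt a
  exact ⟨n, han.le, le_of_eq hn⟩

end Pool.Agent.V8H6.LB
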